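import Mathlib
import Pool.Agent.Q253.BipCover

set_option autoImplicit false

/-!
# The excessive `[m]`-index of a tree (and of every bipartite graph)

For every `m ≥ 1` and every `[m]`-coverable finite tree, and more generally every
`[m]`-coverable finite bipartite graph, the least number of `[m]`-matchings covering all edges is
the maximum of the chromatic index, `⌈|E|/m⌉` and `⌈s^t/t⌉` for `1 ≤ t ≤ m - 1`, where `s^t` is
the largest number of edges of a `t`-splitting set.
-/

namespace Pool.Agent.Results.MP_0e8bc2_co.BipartiteFormula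

open Finset

/-- `M` is an `[m]`-matching of `G`: a set of exactly `m` edges of `G`, no two of which have a
common end. -/
def IsMMatching {V : Type*} (G : SimpleGraph V) (m : ℕ) (M : Finset (Sym2 V)) : Prop :=
  (∀ e ∈ M, e ∈ G.edgeSet) ∧ (∀ e ∈ M, ∀ f ∈ M, ∀ v, v ∈ e → v ∈ f → e = f) ∧ M.card = m

/-- `G` is `[m]`-coverable: every edge lies in an `[m]`-matching. -/
def Coverable {V : Type*} (G : SimpleGraph V) (m : ℕ) : Prop :=
  ∀ e ∈ G.edgeSet, ∃ M, IsMMatching G m M ∧ e ∈ M

/-- The edge set of `G` is the union of `k` (not necessarily distinct) `[m]`-matchings. -/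
def CoveredBy {V : Type*} (G : SimpleGraph V) (m k : ℕ) : Prop :=
  ∃ F : Fin k → Finset (Sym2 V), (∀ i, IsMMatching G m (F i)) ∧ ∀ e ∈ G.edgeSet, ∃ i, e ∈ F i

/-- The chromatic index: least number of colours in a proper colouring of the edges. -/
noncomputable def chromaticIndex {V : Type*} (G : SimpleGraph V) : ℕ :=
  sInf {k | G.lineGraph.Colorable k}

/-- The subgraph `S` of `G` is a `t`-splitting set (with respect to `m`): it has a
`[t+1]`-matching, and none of its `[t+1]`-matchings is contained in an `[m]`-matching of `G`. -/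
def IsSplitting {V : Type*} (G : SimpleGraph V) (m t : ℕ) (S : SimpleGraph V) : Prop :=
  S ≤ G ∧ (∃ N, IsMMatching S (t + 1) N) ∧
    ∀ N, IsMMatching S (t + 1) N → ∀ M, IsMMatching G m M → ¬ N ⊆ M

/-- `s^t(G)`: the largest number of edges of a `t`-splitting set (`0` if there is none). -/
noncomputable def splitNum {V : Type*} (G : SimpleGraph V) (m t : ℕ) : ℕ :=
  sSup {n | ∃ S, IsSplitting G m t S ∧ S.edgeSet.ncard = n}

/-- The right-hand side of the conjectured formula. -/
noncomputable def bound {V : Type*} (G : SimpleGraph V) (m : ℕ) : ℕ :=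
  max (max (chromaticIndex G) (G.edgeSet.ncard ⌈/⌉ m))
    ((Finset.Icc 1 (m - 1)).sup fun t => splitNum G m t ⌈/⌉ t)

section basics

variable {V : Type*} [Finite V]

theorem colorable_chromaticIndex (G : SimpleGraph V) : G.lineGraph.Colorable (chromaticIndex G) := by
  classical
  have : {k | G.lineGraph.Colorable k}.Nonempty := by
    have := Fintype.ofFinite V
    have : Fintype G.edgeSet := Fintype.ofFinite _
    exact ⟨_, SimpleGraph.colorable_of_fintype G.lineGraph⟩
  exact Nat.sInf_mem this

/-- A proper edge colouring as a function on `Sym2 V`. -/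
theorem exists_coloring (G : SimpleGraph V) (k : ℕ) (hk : chromaticIndex G ≤ k) :
    ∃ c : G.edgeSet → Fin k, ∀ e f : G.edgeSet, ∀ v, v ∈ (e : Sym2 V) → v ∈ (f : Sym2 V) →
      c e = c f → e = f := by
  obtain ⟨C⟩ := (colorable_chromaticIndex G).mono hk
  refine ⟨C, fun e f v he hf h => ?_⟩
  by_contra hne
  exact C.valid (SimpleGraph.lineGraph_adj_iff_exists.2 ⟨hne, v, he, hf⟩) h

theorem splitNum_bdd (G : SimpleGraph V) (m t : ℕ) :
    BddAbove {n | ∃ S, IsSplitting G m t S ∧ S.edgeSet.ncard = n} := by
  refine ⟨G.edgeSet.ncard, ?_⟩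
  rintro n ⟨S, hS, rfl⟩
  exact Set.ncard_le_ncard (SimpleGraph.edgeSet_subset_edgeSet.2 hS.1) (Set.toFinite _)

theorem le_splitNum (G : SimpleGraph V) (m t : ℕ) (S : SimpleGraph V) (hS : IsSplitting G m t S) :
    S.edgeSet.ncard ≤ splitNum G m t :=
  le_csSup (splitNum_bdd G m t) ⟨S, hS, rfl⟩

end basics

/-- If the edges are properly coloured with `k` colours and each monochromatic subset of `S` has
at most `t` elements, then `S` has at most `t * k` elements. -/
theorem card_le_of_classes {V : Type*} (G : SimpleGraph V) (k : ℕ) (col : G.edgeSet → Fin k)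
    (S : Finset (Sym2 V)) (hS : ∀ e ∈ S, e ∈ G.edgeSet) (t : ℕ)
    (h : ∀ N : Finset (Sym2 V), N ⊆ S → (∀ e f : G.edgeSet, (e : Sym2 V) ∈ N → (f : Sym2 V) ∈ N →
      col e = col f) → N.card ≤ t) : S.card ≤ t * k := by
  classical
  have h1 : S.attach.card = ∑ i : Fin k,
      (S.attach.filter (fun e => col ⟨e.1, hS e.1 e.2⟩ = i)).card :=
    Finset.card_eq_sum_card_fiberwise (fun _ _ => by simp)
  rw [Finset.card_attach] at h1
  rw [h1]
  calc _ ≤ ∑ _i : Fin k, t := by
        refine Finset.sum_le_sum fun i _ => ?_
        rw [← Finset.card_image_of_injective _ Subtype.val_injective]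
        refine h _ ?_ ?_
        · intro e he
          obtain ⟨x, _, rfl⟩ := Finset.mem_image.1 he
          exact x.2
        · intro e f he hf
          obtain ⟨x, hx, hxe⟩ := Finset.mem_image.1 he
          obtain ⟨y, hy, hyf⟩ := Finset.mem_image.1 hf
          have hx' := (Finset.mem_filter.1 hx).2
          have hy' := (Finset.mem_filter.1 hy).2
          have e1 : e = ⟨x.1, hS x.1 x.2⟩ := Subtype.ext hxe.symm
          have e2 : f = ⟨y.1, hS y.1 y.2⟩ := Subtype.ext hyf.symm
          rw [e1, e2, hx', hy']
    _ = t * k := by simp [mul_comm]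

/-- Lower bound: each term of the right-hand side is at most the number of matchings in a cover. -/
theorem bound_le {V : Type*} [Finite V] (G : SimpleGraph V) (m k : ℕ) (hm : 1 ≤ m)
    (h : CoveredBy G m k) : bound G m ≤ k := by
  classical
  have := Fintype.ofFinite V
  obtain ⟨F, hF, hcov⟩ := h
  refine max_le (max_le ?_ ?_) ?_
  · refine Nat.sInf_le ?_
    choose c hc using fun e : G.edgeSet => hcov e e.2
    refine ⟨SimpleGraph.Coloring.mk c ?_⟩
    intro e f hadj hcf
    obtain ⟨hne, v, hve, hvf⟩ := SimpleGraph.lineGraph_adj_iff_exists.1 hadj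
    apply hne
    have h1 := hc e
    have h2 := hc f
    rw [← hcf] at h2
    exact Subtype.ext ((hF (c e)).2.1 _ h1 _ h2 v hve hvf)
  · rw [ceilDiv_le_iff_le_mul (by omega)]
    have h1 : G.edgeSet ⊆ ((univ : Finset (Fin k)).biUnion F : Finset (Sym2 V)) := by
      intro e he
      obtain ⟨i, hi⟩ := hcov e he
      simp only [Finset.coe_biUnion, Set.mem_iUnion]
      exact ⟨i, by simp, hi⟩
    calc G.edgeSet.ncard ≤ ((univ : Finset (Fin k)).biUnion F : Finset (Sym2 V)).card := by
          rw [← Set.ncard_coe_finset]
          exact Set.ncard_le_ncard h1 (Finset.finite_toSet _)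
      _ ≤ ∑ i : Fin k, (F i).card := Finset.card_biUnion_le
      _ = m * k := by
          rw [Finset.sum_congr rfl fun i _ => (hF i).2.2]
          simp [mul_comm]
  · refine Finset.sup_le fun t ht => ?_
    rw [Finset.mem_Icc] at ht
    rw [ceilDiv_le_iff_le_mul (by omega)]
    by_cases hne : {n | ∃ S, IsSplitting G m t S ∧ S.edgeSet.ncard = n}.Nonempty
    · refine csSup_le hne ?_
      rintro n ⟨S, hS, rfl⟩
      have hfin : S.edgeSet.Finite := Set.toFinite _
      have hle : ∀ i, (F i ∩ hfin.toFinset).card ≤ t := by
        intro i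
        by_contra hlt
        obtain ⟨N, hN, hNc⟩ := Finset.exists_subset_card_eq (s := F i ∩ hfin.toFinset)
          (n := t + 1) (by omega)
        refine hS.2.2 N ⟨?_, ?_, hNc⟩ (F i) (hF i) (hN.trans Finset.inter_subset_left)
        · intro e he
          have := hN he
          rw [Finset.mem_inter, Set.Finite.mem_toFinset] at this
          exact this.2
        · intro e he f hf
          exact (hF i).2.1 e (Finset.mem_inter.1 (hN he)).1 f (Finset.mem_inter.1 (hN hf)).1
      have hsub : hfin.toFinset ⊆ (univ : Finset (Fin k)).biUnion (fun i => F i ∩ hfin.toFinset) := by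
        intro e he
        have he' : e ∈ S.edgeSet := (Set.Finite.mem_toFinset hfin).1 he
        obtain ⟨i, hi⟩ := hcov e (SimpleGraph.edgeSet_subset_edgeSet.2 hS.1 he')
        exact Finset.mem_biUnion.2 ⟨i, Finset.mem_univ _, Finset.mem_inter.2 ⟨hi, he⟩⟩
      rw [Set.ncard_eq_toFinset_card _ hfin]
      calc hfin.toFinset.card ≤ _ := Finset.card_le_card hsub
        _ ≤ ∑ i : Fin k, (F i ∩ hfin.toFinset).card := Finset.card_biUnion_le
        _ ≤ ∑ _i : Fin k, t := Finset.sum_le_sum fun i _ => hle i
        _ = t * k := by simp [mul_comm]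
    · rw [Set.not_nonempty_iff_eq_empty] at hne
      unfold splitNum
      rw [hne]
      simp

/-- Upper bound: a coverable bipartite graph is covered by `bound G m` matchings. -/
theorem covered {V : Type*} [Finite V] (G : SimpleGraph V) (m : ℕ) (hm : 1 ≤ m)
    (hG : G.IsBipartite) (hcov : Coverable G m) : CoveredBy G m (bound G m) := by
  classical
  have := Fintype.ofFinite V
  obtain ⟨c⟩ := hG
  set k := bound G m with hk
  have hk1 : chromaticIndex G ≤ k := (le_max_left _ _).trans (le_max_left _ _)
  have hk2 : G.edgeSet.ncard ≤ m * k := by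
    rw [← ceilDiv_le_iff_le_mul (by omega)]
    exact (le_max_right _ _).trans (le_max_left _ _)
  have hk3 : ∀ t, 1 ≤ t → t ≤ m - 1 → splitNum G m t ≤ t * k := by
    intro t h1 h2
    rw [← ceilDiv_le_iff_le_mul (by omega)]
    have : splitNum G m t ⌈/⌉ t ≤ (Finset.Icc 1 (m - 1)).sup fun t => splitNum G m t ⌈/⌉ t :=
      Finset.le_sup (f := fun t => splitNum G m t ⌈/⌉ t) (Finset.mem_Icc.2 ⟨h1, h2⟩)
    exact this.trans (le_max_right _ _)
  obtain ⟨col, hcol⟩ := exists_coloring G k hk1
  let X := {v : V // c v = 0}
  let Y := {v : V // c v = 1}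
  let E : Finset (X × Y) := univ.filter (fun p => G.Adj p.1 p.2)
  have hXY : ∀ (x : X) (y : Y), (x : V) ≠ (y : V) := by
    intro x y h
    have h1 := x.2
    rw [h, y.2] at h1
    exact absurd h1 (by decide)
  let ι : X × Y → Sym2 V := fun p => s((p.1 : V), (p.2 : V))
  have hι : Function.Injective ι := by
    rintro ⟨x, y⟩ ⟨x', y'⟩ h
    simp only [ι, Sym2.eq_iff] at h
    rcases h with ⟨h1, h2⟩ | ⟨h1, h2⟩
    · exact Prod.ext (Subtype.ext h1) (Subtype.ext h2)
    · exact absurd h1 (hXY x y')
  have hedge : ∀ e ∈ G.edgeSet, ∃ p ∈ E, ι p = e := by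
    intro e he
    induction e with
    | _ u v =>
      rw [SimpleGraph.mem_edgeSet] at he
      have hne := c.valid he
      have hu : c u = 0 ∨ c u = 1 := by
        have := (c u).2
        rcases Nat.lt_or_ge (c u).1 1 with h | h
        · exact Or.inl (Fin.ext (by simpa using h))
        · exact Or.inr (Fin.ext (by show (c u).1 = 1; omega))
      have hv : c v = 0 ∨ c v = 1 := by
        have := (c v).2
        rcases Nat.lt_or_ge (c v).1 1 with h | h
        · exact Or.inl (Fin.ext (by simpa using h))
        · exact Or.inr (Fin.ext (by show (c v).1 = 1; omega))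
      rcases hu with hu | hu <;> rcases hv with hv | hv
      · exact absurd (hu.trans hv.symm) hne
      · exact ⟨(⟨u, hu⟩, ⟨v, hv⟩), by simp [E, he], rfl⟩
      · exact ⟨(⟨v, hv⟩, ⟨u, hu⟩), by simp [E, he.symm], Sym2.eq_swap⟩
      · exact absurd (hu.trans hv.symm) hne
  have hEedge : ∀ p ∈ E, ι p ∈ G.edgeSet := by
    intro p hp
    simpa [E, ι] using hp
  have hEcard : E.card = G.edgeSet.ncard := by
    rw [← Finset.card_image_of_injective E hι, ← Set.ncard_coe_finset]
    congr 1
    ext e
    simp only [Finset.coe_image, Set.mem_image, Finset.mem_coe]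
    constructor
    · rintro ⟨p, hp, rfl⟩
      exact hEedge p hp
    · exact hedge e
  -- degrees
  have star : ∀ (S : Finset (X × Y)) (v : V), S ⊆ E → (∀ p ∈ S, v ∈ ι p) → S.card ≤ k := by
    intro S v hSE hv
    rw [← Finset.card_image_of_injective S hι]
    have := card_le_of_classes G k col (S.image ι) (fun e he => by
      obtain ⟨p, hp, rfl⟩ := Finset.mem_image.1 he
      exact hEedge p (hSE hp)) 1 (fun N hN hmono => by
        rw [Finset.card_le_one]
        intro e he f hf
        have hev : ∀ e ∈ N, v ∈ e ∧ e ∈ G.edgeSet := by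
          intro e he
          obtain ⟨p, hp, rfl⟩ := Finset.mem_image.1 (hN he)
          exact ⟨hv p hp, hEedge p (hSE hp)⟩
        have h := hcol ⟨e, (hev e he).2⟩ ⟨f, (hev f hf).2⟩ v (hev e he).1 (hev f hf).1
          (hmono _ _ he hf)
        exact congrArg Subtype.val h)
    simpa using this
  have dx : ∀ x, (E.filter (fun e => e.1 = x)).card ≤ k := by
    intro x
    refine star _ (x : V) (Finset.filter_subset _ _) ?_
    intro p hp
    have := (Finset.mem_filter.1 hp).2
    simp [ι, ← this]
  have dy : ∀ y, (E.filter (fun e => e.2 = y)).card ≤ k := by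
    intro y
    refine star _ (y : V) (Finset.filter_subset _ _) ?_
    intro p hp
    have := (Finset.mem_filter.1 hp).2
    simp [ι, ← this]
  -- a matching of `G` inside a vertex cover
  have hE2 : E.card ≤ k * m := by
    rw [hEcard]
    linarith [hk2, mul_comm m k]
  have hC : ∀ (A : Finset X) (B : Finset Y), (∀ e ∈ E, e.1 ∈ A ∨ e.2 ∈ B) →
      k * m + (E.filter (fun e => e.1 ∈ A ∧ e.2 ∈ B)).card ≤ k * (A.card + B.card) := by
    intro A B hAB
    -- every `[m]`-matching uses at most `|A| + |B| - m` edges inside the cover
    have key : ∀ M, IsMMatching G m M → ∀ N : Finset (X × Y), (∀ p ∈ N, p.1 ∈ A ∧ p.2 ∈ B) →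
        N.image ι ⊆ M → m + N.card ≤ A.card + B.card := by
      intro M hM N hN hNM
      -- preimage of M
      let Q : Finset (X × Y) := E.filter (fun p => ι p ∈ M)
      have hQ : Q.card = m := by
        rw [← Finset.card_image_of_injective Q hι, ← hM.2.2]
        congr 1
        ext e
        simp only [Finset.mem_image]
        constructor
        · rintro ⟨p, hp, rfl⟩
          exact (Finset.mem_filter.1 hp).2
        · intro he
          obtain ⟨p, hp, rfl⟩ := hedge e (hM.1 e he)
          exact ⟨p, Finset.mem_filter.2 ⟨hp, he⟩, rfl⟩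
      have hQA : (Q.filter (fun p => p.1 ∈ A)).card ≤ A.card := by
        refine Finset.card_le_card_of_injOn (fun p => p.1) ?_ ?_
        · intro p hp
          exact (Finset.mem_filter.1 hp).2
        · intro p hp p' hp' h
          have h1 := (Finset.mem_filter.1 (Finset.mem_filter.1 hp).1).2
          have h2 := (Finset.mem_filter.1 (Finset.mem_filter.1 hp').1).2
          refine hι (hM.2.1 _ h1 _ h2 (p.1 : V) ?_ ?_)
          · simp [ι]
          · have : p.1 = p'.1 := h
            simp [ι, this]
      have hQB : (Q.filter (fun p => p.2 ∈ B)).card ≤ B.card := by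
        refine Finset.card_le_card_of_injOn (fun p => p.2) ?_ ?_
        · intro p hp
          exact (Finset.mem_filter.1 hp).2
        · intro p hp p' hp' h
          have h1 := (Finset.mem_filter.1 (Finset.mem_filter.1 hp).1).2
          have h2 := (Finset.mem_filter.1 (Finset.mem_filter.1 hp').1).2
          refine hι (hM.2.1 _ h1 _ h2 (p.2 : V) ?_ ?_)
          · simp [ι]
          · have : p.2 = p'.2 := h
            simp [ι, this]
      have hun : Q.filter (fun p => p.1 ∈ A) ∪ Q.filter (fun p => p.2 ∈ B) = Q := by
        rw [← Finset.filter_or, Finset.filter_eq_self]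
        intro p hp
        exact hAB p (Finset.mem_filter.1 hp).1
      have hint : N ⊆ Q.filter (fun p => p.1 ∈ A) ∩ Q.filter (fun p => p.2 ∈ B) := by
        intro p hp
        have h1 : ι p ∈ M := hNM (Finset.mem_image_of_mem _ hp)
        have h2 : p ∈ E := by
          obtain ⟨p', hp', he⟩ := hedge _ (hM.1 _ h1)
          rwa [← hι he]
        have h3 : p ∈ Q := Finset.mem_filter.2 ⟨h2, h1⟩
        exact Finset.mem_inter.2 ⟨Finset.mem_filter.2 ⟨h3, (hN p hp).1⟩,
          Finset.mem_filter.2 ⟨h3, (hN p hp).2⟩⟩
      have h4 := Finset.card_union_add_card_inter (Q.filter (fun p => p.1 ∈ A))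
        (Q.filter (fun p => p.2 ∈ B))
      rw [hun, hQ] at h4
      have h5 := Finset.card_le_card hint
      omega
    set S := E.filter (fun e => e.1 ∈ A ∧ e.2 ∈ B) with hSdef
    have hSle : S.card ≤ E.card := Finset.card_le_card (Finset.filter_subset _ _)
    -- if `E` is empty then `k = 0`
    by_cases hEe : E = ∅
    · have hk0 : k = 0 := by
        have hes : G.edgeSet = ∅ := by
          rw [Set.eq_empty_iff_forall_notMem]
          intro e he
          obtain ⟨p, hp, _⟩ := hedge e he
          rw [hEe] at hp
          simp at hp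
        have hnoM : ∀ (S : SimpleGraph V) t, S ≤ G → ¬ ∃ N, IsMMatching S (t + 1) N := by
          rintro S t hS ⟨N, hN1, _, hN3⟩
          have : N.Nonempty := Finset.card_pos.1 (by omega)
          obtain ⟨e, he⟩ := this
          have := SimpleGraph.edgeSet_subset_edgeSet.2 hS (hN1 e he)
          rw [hes] at this
          exact this
        have h1 : chromaticIndex G = 0 := by
          refine Nat.sInf_eq_zero.2 (Or.inl ?_)
          have : IsEmpty G.edgeSet := by
            rw [hes]
            infer_instance
          exact ⟨SimpleGraph.Coloring.mk (fun e => isEmptyElim e) (fun {e} => isEmptyElim e)⟩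
        have h2 : ∀ t, splitNum G m t = 0 := by
          intro t
          have : {n | ∃ S, IsSplitting G m t S ∧ S.edgeSet.ncard = n} = ∅ := by
            rw [Set.eq_empty_iff_forall_notMem]
            rintro n ⟨S, hS, _⟩
            exact hnoM S t hS.1 hS.2.1
          unfold splitNum
          rw [this]
          simp
        have h3 : ((Finset.Icc 1 (m - 1)).sup fun t => splitNum G m t ⌈/⌉ t) = 0 := by
          have : ((Finset.Icc 1 (m - 1)).sup fun t => splitNum G m t ⌈/⌉ t) ≤ 0 := by
            refine Finset.sup_le fun t _ => ?_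
            rw [h2 t]
            simp
          omega
        rw [hk]
        unfold bound
        rw [h1, h3, hes]
        simp
      have : S.card = 0 := by
        rw [hEe] at hSle
        simpa using hSle
      rw [this, hk0]
      simp
    · obtain ⟨p0, hp0⟩ := Finset.nonempty_iff_ne_empty.2 hEe
      obtain ⟨M0, hM0, _⟩ := hcov (ι p0) (hEedge p0 hp0)
      have hmc : m ≤ A.card + B.card := by
        have := key M0 hM0 ∅ (by simp) (by simp)
        simpa using this
      obtain ⟨t, ht⟩ := Nat.exists_eq_add_of_le hmc
      rw [ht]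
      suffices hS : S.card ≤ k * t by
        rw [mul_add]
        omega
      rcases Nat.eq_zero_or_pos t with ht0 | htpos
      · -- no edge inside a cover of size `m`
        subst ht0
        rw [Nat.mul_zero, Nat.le_zero, Finset.card_eq_zero, Finset.eq_empty_iff_forall_notMem]
        intro p hp
        rw [hSdef, Finset.mem_filter] at hp
        obtain ⟨M, hM, hpM⟩ := hcov (ι p) (hEedge p hp.1)
        have := key M hM {p} (by simpa using hp.2) (by simpa using hpM)
        simp at this
        omega
      · by_cases htm : m ≤ t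
        · calc S.card ≤ k * m := hSle.trans hE2
            _ ≤ k * t := Nat.mul_le_mul_left k htm
        · -- the subgraph with edge set `S`
          let H : SimpleGraph V := SimpleGraph.fromEdgeSet ((S.image ι : Finset (Sym2 V)) : Set (Sym2 V))
          have hHe : H.edgeSet = ((S.image ι : Finset (Sym2 V)) : Set (Sym2 V)) := by
            rw [SimpleGraph.edgeSet_fromEdgeSet]
            ext e
            constructor
            · intro h
              exact h.1
            · intro h
              refine ⟨h, ?_⟩
              obtain ⟨p, hp, rfl⟩ := Finset.mem_image.1 (Finset.mem_coe.1 h)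
              have := hEedge p (Finset.filter_subset _ _ hp)
              exact G.not_isDiag_of_mem_edgeSet this
          have hSG : ∀ e ∈ S.image ι, e ∈ G.edgeSet := by
            intro e he
            obtain ⟨p, hp, rfl⟩ := Finset.mem_image.1 he
            exact hEedge p (Finset.filter_subset _ _ hp)
          have hHG : H ≤ G := by
            rw [← SimpleGraph.edgeSet_subset_edgeSet, hHe]
            intro e he
            exact hSG e (Finset.mem_coe.1 he)
          have hHc : H.edgeSet.ncard = S.card := by
            rw [hHe, Set.ncard_coe_finset, Finset.card_image_of_injective _ hι]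
          by_cases hmat : ∃ N, IsMMatching H (t + 1) N
          · have hspl : IsSplitting G m t H := by
              refine ⟨hHG, hmat, ?_⟩
              intro N hN M hM hNM
              let N' : Finset (X × Y) := S.filter (fun p => ι p ∈ N)
              have hN' : N'.image ι = N := by
                ext e
                simp only [Finset.mem_image]
                constructor
                · rintro ⟨p, hp, rfl⟩
                  exact (Finset.mem_filter.1 hp).2
                · intro he
                  have := hN.1 e he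
                  rw [hHe] at this
                  obtain ⟨p, hp, rfl⟩ := Finset.mem_image.1 (Finset.mem_coe.1 this)
                  exact ⟨p, Finset.mem_filter.2 ⟨hp, he⟩, rfl⟩
              have hc' : N'.card = t + 1 := by
                rw [← Finset.card_image_of_injective _ hι, hN', hN.2.2]
              have := key M hM N' (fun p hp => (Finset.mem_filter.1 (Finset.mem_filter.1 hp).1).2)
                (hN' ▸ hNM)
              omega
            have h1 := le_splitNum G m t H hspl
            rw [hHc] at h1
            calc S.card ≤ splitNum G m t := h1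
              _ ≤ t * k := hk3 t htpos (by omega)
              _ = k * t := mul_comm _ _
          · rw [← Finset.card_image_of_injective S hι, mul_comm]
            refine card_le_of_classes G k col (S.image ι) hSG t ?_
            intro N hN hmono
            by_contra hlt
            obtain ⟨N', hN', hN'c⟩ := Finset.exists_subset_card_eq (s := N) (n := t + 1) (by omega)
            refine hmat ⟨N', ?_, ?_, hN'c⟩
            · intro e he
              rw [hHe]
              exact Finset.mem_coe.2 (hN (hN' he))
            · intro e he f hf v hve hvf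
              have h := hcol ⟨e, hSG e (hN (hN' he))⟩ ⟨f, hSG f (hN (hN' hf))⟩ v hve hvf
                (hmono _ _ (hN' he) (hN' hf))
              exact congrArg Subtype.val h
  obtain ⟨F, hF1, hF2, hF3, hF4, hF5⟩ :=
    Pool.Agent.Q253.BipCover.cover_bip E m k hE2 dx dy hC
  refine ⟨fun i => (F i).image ι, fun i => ⟨?_, ?_, ?_⟩, ?_⟩
  · intro e he
    obtain ⟨p, hp, rfl⟩ := Finset.mem_image.1 he
    exact hEedge p (hF1 i hp)
  · intro e he f hf v hve hvf
    obtain ⟨⟨x, y⟩, hp, rfl⟩ := Finset.mem_image.1 he
    obtain ⟨⟨x', y'⟩, hq, rfl⟩ := Finset.mem_image.1 hf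
    simp only [ι, Sym2.mem_iff] at hve hvf
    rcases hve with rfl | rfl
    · rcases hvf with h | h
      · rw [hF3 i _ hp _ hq (Subtype.ext h)]
      · exact absurd h (hXY x y')
    · rcases hvf with h | h
      · exact absurd h.symm (hXY x' y)
      · rw [hF4 i _ hp _ hq (Subtype.ext h)]
  · rw [Finset.card_image_of_injective _ hι, hF2]
  · intro e he
    obtain ⟨p, hp, rfl⟩ := hedge e he
    obtain ⟨i, hi⟩ := hF5 p hp
    exact ⟨i, Finset.mem_image_of_mem _ hi⟩

/-- **The formula of Q1 is true**, for trees and more generally for bipartite graphs.  For every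
`m ≥ 1` and every `[m]`-coverable finite graph `G` which is a tree (or just bipartite), the
number `max {χ'(G), ⌈|E(G)|/m⌉, ⌈s^t(G)/t⌉ (1 ≤ t ≤ m-1)}` is the least `k` such that `k`
`[m]`-matchings of `G` cover `E(G)`. -/
theorem result {V : Type*} [Finite V] (G : SimpleGraph V) (m : ℕ) (hm : 1 ≤ m)
    (hG : G.IsTree ∨ G.IsBipartite) (hcov : Coverable G m) :
    IsLeast {k | CoveredBy G m k}
      (max (max (chromaticIndex G) (G.edgeSet.ncard ⌈/⌉ m))
        ((Finset.Icc 1 (m - 1)).sup fun t => splitNum G m t ⌈/⌉ t)) := by
  have hG' : G.IsBipartite := hG.elim (fun h => h.isBipartite) id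
  exact ⟨covered G m hm hG' hcov, fun k hk => bound_le G m k hm hk⟩

end Pool.Agent.Results.MP_0e8bc2_co.BipartiteFormula
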